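import Pool.Agent.helper1.SF.SpecA
import Pool.Agent.helper28.SF.KB

/-!
# Module sa:KDB (helper21): bounds for the kernel by the Abel integral (variant of helper28's KB)
-/

set_option autoImplicit false

namespace SF

open scoped ContDiff

/-- the five bounds for a kernel of the form `K √y q φ(A, x q)` -/
theorem KDB_main {Φ : ℝ × ℝ → ℝ} (h : ContDiffOn ℝ ∞ Φ {p | 0 < p.1}) (E : ℝ → ℝ)
    (K : ℝ) (hK : |K| ≤ 1) (f : ℝ → ℝ → ℝ → ℝ)
    (hf : ∀ s x y : ℝ, 0 < y →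
      f s x y = K * √y * KB_q x y * Φ (Real.exp (2 * s) / (25 * y), x * KB_q x y))
    (s x y : ℝ) (hy : 0 < y)
    (hE : ∀ A c : ℝ, 0 < A → |c| ≤ 1 → A = Real.exp (2 * s) / (25 * y) → c = x * KB_q x y →
      |Φ (A, c)| ≤ E A ∧ |fderiv ℝ Φ (A, c) (0, 1)| ≤ E A ∧
      |fderiv ℝ (fun p => fderiv ℝ Φ p (0, 1)) (A, c) (0, 1)| ≤ E A ∧
      |A * fderiv ℝ Φ (A, c) (1, 0)| ≤ E A ∧
      |A * fderiv ℝ (fun p => fderiv ℝ Φ p (0, 1)) (A, c) (1, 0)| ≤ E A) :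
    |f s x y| ≤ √y * KB_q x y * (11 * E (Real.exp (2 * s) / (25 * y))) ∧
    |dX f s x y| ≤ √y * KB_q x y ^ 2 * (11 * E (Real.exp (2 * s) / (25 * y))) ∧
    |dX (dX f) s x y| ≤ √y * KB_q x y ^ 3 * (11 * E (Real.exp (2 * s) / (25 * y))) ∧
    |dY f s x y| ≤ √y * y⁻¹ * KB_q x y * (11 * E (Real.exp (2 * s) / (25 * y))) ∧
    |dX (dY f) s x y| ≤ √y * y⁻¹ * KB_q x y ^ 2 * (11 * E (Real.exp (2 * s) / (25 * y))) := by
  set A : ℝ := Real.exp (2 * s) / (25 * y) with hA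
  have hA0 : 0 < A := by positivity
  -- the functions of `c`
  set Φ2 : ℝ × ℝ → ℝ := fun p => fderiv ℝ Φ p (0, 1) with hΦ2
  set Φ1 : ℝ × ℝ → ℝ := fun p => fderiv ℝ Φ p (1, 0) with hΦ1
  have h2s : ContDiffOn ℝ ∞ Φ2 {p | 0 < p.1} := KB_par h (0, 1)
  have h1s : ContDiffOn ℝ ∞ Φ1 {p | 0 < p.1} := KB_par h (1, 0)
  have e0 : ∀ c, HasDerivAt (fun t => Φ (A, t)) (Φ2 (A, c)) c := fun c => KB_d2 h hA0 c
  have e2 : ∀ c, HasDerivAt (fun t => Φ2 (A, t)) (fderiv ℝ Φ2 (A, c) (0, 1)) c :=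
    fun c => KB_d2 h2s hA0 c
  have e1 : ∀ c, HasDerivAt (fun t => Φ1 (A, t)) (fderiv ℝ Φ2 (A, c) (1, 0)) c := by
    intro c
    have := KB_d2 h1s hA0 c
    rwa [hΦ1, KB_sym h hA0 c (1, 0) (0, 1)] at this
  set P1 : ℝ → ℝ := fun c => -c * Φ (A, c) + (1 - c ^ 2) * Φ2 (A, c) with hP1
  have hP1d : ∀ c, HasDerivAt P1 (-Φ (A, c) - 3 * c * Φ2 (A, c) +
      (1 - c ^ 2) * fderiv ℝ Φ2 (A, c) (0, 1)) c := by
    intro c
    have a1 : HasDerivAt (fun c : ℝ => -c) (-1) c := (hasDerivAt_id c).neg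
    have a2 : HasDerivAt (fun c : ℝ => 1 - c ^ 2) (-(2 * c)) c := by
      simpa using (hasDerivAt_pow 2 c).const_sub 1
    refine ((a1.mul (e0 c)).add (a2.mul (e2 c))).congr_deriv ?_
    ring
  set P3 : ℝ → ℝ := fun c => Φ (A, c) / 2 - (1 - c ^ 2) * Φ (A, c) - A * Φ1 (A, c) -
    c * (1 - c ^ 2) * Φ2 (A, c) with hP3
  have hP3d : ∀ c, HasDerivAt P3 (Φ2 (A, c) / 2 + 2 * c * Φ (A, c) - (1 - c ^ 2) * Φ2 (A, c) -
      A * fderiv ℝ Φ2 (A, c) (1, 0) - (1 - 3 * c ^ 2) * Φ2 (A, c) -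
      c * (1 - c ^ 2) * fderiv ℝ Φ2 (A, c) (0, 1)) c := by
    intro c
    have a1 : HasDerivAt (fun c : ℝ => c * (1 - c ^ 2)) (1 - 3 * c ^ 2) c := by
      have := (hasDerivAt_id c).mul ((hasDerivAt_pow 2 c).const_sub 1)
      refine this.congr_deriv ?_
      simp
      ring
    have a2 : HasDerivAt (fun c : ℝ => 1 - c ^ 2) (-(2 * c)) c := by
      simpa using (hasDerivAt_pow 2 c).const_sub 1
    refine (((((e0 c).div_const 2).sub (a2.mul (e0 c))).sub ((e1 c).const_mul A)).sub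
      (a1.mul (e2 c))).congr_deriv ?_
    ring
  -- the derivatives of `f`
  have f0 : ∀ t, f s t y = K * √y * KB_q t y ^ (0 + 1) * Φ (A, t * KB_q t y) := by
    intro t
    rw [hf s t y hy]
    ring
  have f1 : ∀ t, dX f s t y = K * √y * KB_q t y ^ (1 + 1) * P1 (t * KB_q t y) := by
    intro t
    rw [dX]
    have b1 := KB_GX (K * √y) hy 0 (fun c => Φ (A, c)) _ t (e0 (t * KB_q t y))
    have b2 : (fun t => f s t y) = fun t => K * √y * KB_q t y ^ (0 + 1) * Φ (A, t * KB_q t y) :=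
      funext f0
    rw [b2, b1.deriv]
    simp only [hP1]
    push_cast
    ring
  have f2 : dX (dX f) s x y = K * √y * KB_q x y ^ 3 * (-2 * (x * KB_q x y) * P1 (x * KB_q x y) +
      (1 - (x * KB_q x y) ^ 2) * (-Φ (A, (x * KB_q x y)) - 3 * (x * KB_q x y) *
        Φ2 (A, (x * KB_q x y)) +
      (1 - (x * KB_q x y) ^ 2) * fderiv ℝ Φ2 (A, (x * KB_q x y)) (0, 1))) := by
    rw [dX]
    have b1 := KB_GX (K * √y) hy 1 P1 _ x (hP1d (x * KB_q x y))
    have b2 : (fun t => dX f s t y) = fun t => K * √y * KB_q t y ^ (1 + 1) * P1 (t * KB_q t y) :=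
      funext f1
    rw [b2, b1.deriv]
    push_cast
    ring
  have f3 : ∀ t, dY f s t y = K * √y * y⁻¹ * KB_q t y ^ (0 + 1) * P3 (t * KB_q t y) := by
    intro t
    rw [dY]
    have b1 := KB_GY h K s t hy
    have b2 : (fun u => f s t u) =ᶠ[nhds y] fun u => K * √u * KB_q t u *
        Φ (Real.exp (2 * s) / (25 * u), t * KB_q t u) := by
      filter_upwards [lt_mem_nhds hy] with u hu
      exact hf s t u hu
    rw [b2.deriv_eq, b1.deriv]
    simp only [hP3, hΦ1, hΦ2, ← hA]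
    ring
  have f4 : dX (dY f) s x y = K * √y * y⁻¹ * KB_q x y ^ 2 * (-(x * KB_q x y) *
      P3 (x * KB_q x y) + (1 - (x * KB_q x y) ^ 2) * (Φ2 (A, (x * KB_q x y)) / 2 +
      2 * (x * KB_q x y) * Φ (A, (x * KB_q x y)) -
      (1 - (x * KB_q x y) ^ 2) * Φ2 (A, (x * KB_q x y)) -
      A * fderiv ℝ Φ2 (A, (x * KB_q x y)) (1, 0) - (1 - 3 * (x * KB_q x y) ^ 2) *
        Φ2 (A, (x * KB_q x y)) -
      (x * KB_q x y) * (1 - (x * KB_q x y) ^ 2) *
        fderiv ℝ Φ2 (A, (x * KB_q x y)) (0, 1))) := by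
    rw [dX]
    have b1 := KB_GX (K * √y * y⁻¹) hy 0 P3 _ x (hP3d (x * KB_q x y))
    have b2 : (fun t => dY f s t y) = fun t => K * √y * y⁻¹ * KB_q t y ^ (0 + 1) *
        P3 (t * KB_q t y) := funext f3
    rw [b2, b1.deriv]
    push_cast
    ring
  -- the bounds
  have hc := KB_c2 (x := x) hy
  set c : ℝ := x * KB_q x y with hcdef
  obtain ⟨g0, g1, g2, g3, g4⟩ := hE A c hA0 hc hA hcdef
  have hE0 : 0 ≤ E A := (abs_nonneg _).trans g0
  have hc2 : |1 - c ^ 2| ≤ 1 := by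
    rw [abs_le]
    have : c ^ 2 ≤ 1 := by
      rw [← sq_abs]
      nlinarith [abs_nonneg c]
    constructor <;> nlinarith [sq_nonneg c]
  have hc3 : |1 - 3 * c ^ 2| ≤ 2 := by
    rw [abs_le]
    have : c ^ 2 ≤ 1 := by
      rw [← sq_abs]
      nlinarith [abs_nonneg c]
    constructor <;> nlinarith [sq_nonneg c]
  have hq := KB_q_pos (x := x) hy
  have mulb : ∀ u v a b : ℝ, |u| ≤ a → |v| ≤ b → 0 ≤ a → |u * v| ≤ a * b := by
    intro u v a b h1 h2 h3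
    rw [abs_mul]
    exact mul_le_mul h1 h2 (abs_nonneg _) h3
  have p1 : |c * Φ (A, c)| ≤ 1 * E A := mulb _ _ _ _ hc g0 (by norm_num)
  have p2 : |(1 - c ^ 2) * Φ2 (A, c)| ≤ 1 * E A := mulb _ _ _ _ hc2 g1 (by norm_num)
  have p3 : |c * Φ2 (A, c)| ≤ 1 * E A := mulb _ _ _ _ hc g1 (by norm_num)
  have p4 : |(1 - c ^ 2) * fderiv ℝ Φ2 (A, c) (0, 1)| ≤ 1 * E A :=
    mulb _ _ _ _ hc2 g2 (by norm_num)
  have p5 : |(1 - c ^ 2) * Φ (A, c)| ≤ 1 * E A := mulb _ _ _ _ hc2 g0 (by norm_num)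
  have p6 : |(1 - 3 * c ^ 2) * Φ2 (A, c)| ≤ 2 * E A := mulb _ _ _ _ hc3 g1 (by norm_num)
  have p7 : |c * ((1 - c ^ 2) * Φ2 (A, c))| ≤ 1 * (1 * E A) := mulb _ _ _ _ hc p2 (by norm_num)
  have p8 : |c * ((1 - c ^ 2) * fderiv ℝ Φ2 (A, c) (0, 1))| ≤ 1 * (1 * E A) :=
    mulb _ _ _ _ hc p4 (by norm_num)
  rw [abs_le] at p1 p2 p3 p4 p5 p6 p7 p8
  have g0' := abs_le.mp g0
  have g1' := abs_le.mp g1
  have g2' := abs_le.mp g2
  have g3' := abs_le.mp g3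
  have g4' := abs_le.mp g4
  have k1 : |P1 c| ≤ 2 * E A := by
    rw [abs_le]
    simp only [hP1]
    constructor <;> linarith [p1.1, p1.2, p2.1, p2.2]
  have k2 : |(-Φ (A, c) - 3 * c * Φ2 (A, c) + (1 - c ^ 2) * fderiv ℝ Φ2 (A, c) (0, 1))| ≤
      5 * E A := by
    rw [abs_le]
    constructor <;> linarith [p3.1, p3.2, p4.1, p4.2, g0'.1, g0'.2]
  have k3 : |P3 c| ≤ 7 / 2 * E A := by
    rw [abs_le]
    simp only [hP3]
    constructor <;> linarith [p5.1, p5.2, p7.1, p7.2, g0'.1, g0'.2, g3'.1, g3'.2]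
  have k4 : |Φ2 (A, c) / 2 + 2 * c * Φ (A, c) - (1 - c ^ 2) * Φ2 (A, c) -
      A * fderiv ℝ Φ2 (A, c) (1, 0) - (1 - 3 * c ^ 2) * Φ2 (A, c) -
      c * (1 - c ^ 2) * fderiv ℝ Φ2 (A, c) (0, 1)| ≤ 15 / 2 * E A := by
    rw [abs_le]
    constructor <;> linarith [p1.1, p1.2, p2.1, p2.2, p6.1, p6.2, p8.1, p8.2, g1'.1, g1'.2,
      g4'.1, g4'.2]
  have fin : ∀ u a : ℝ, 0 ≤ a → |u| ≤ 11 * E A → |K * a * u| ≤ a * (11 * E A) := by
    intro u a ha hu
    rw [abs_mul, abs_mul, abs_of_nonneg ha]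
    calc |K| * a * |u| ≤ 1 * a * |u| := by gcongr
      _ ≤ a * (11 * E A) := by rw [one_mul]; gcongr
  refine ⟨?_, ?_, ?_, ?_, ?_⟩
  · have := fin (Φ (A, c)) (√y * KB_q x y) (by positivity) (by linarith)
    rw [hf s x y hy, ← hcdef, ← hA]
    rw [← mul_assoc] at this
    exact this
  · have := fin (P1 c) (√y * KB_q x y ^ 2) (by positivity) (by linarith)
    rw [f1 x, ← hcdef]
    rw [← mul_assoc] at this
    exact this
  · have k5 : |(-2 * c * P1 c + (1 - c ^ 2) * (-Φ (A, c) - 3 * c * Φ2 (A, c) +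
        (1 - c ^ 2) * fderiv ℝ Φ2 (A, c) (0, 1)))| ≤ 11 * E A := by
      have a1 := mulb _ _ _ _ hc k1 (by norm_num)
      have a2 := mulb _ _ _ _ hc2 k2 (by norm_num)
      rw [abs_le] at a1 a2 ⊢
      constructor <;> linarith [a1.1, a1.2, a2.1, a2.2]
    have := fin _ (√y * KB_q x y ^ 3) (by positivity) k5
    rw [f2]
    rw [← mul_assoc] at this
    exact this
  · have := fin (P3 c) (√y * y⁻¹ * KB_q x y) (by positivity) (by linarith)
    rw [f3 x, ← hcdef]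
    rw [← mul_assoc, ← mul_assoc] at this
    simpa using this
  · have k5 : |(-c * P3 c + (1 - c ^ 2) * (Φ2 (A, c) / 2 + 2 * c * Φ (A, c) -
        (1 - c ^ 2) * Φ2 (A, c) -
        A * fderiv ℝ Φ2 (A, c) (1, 0) - (1 - 3 * c ^ 2) * Φ2 (A, c) -
        c * (1 - c ^ 2) * fderiv ℝ Φ2 (A, c) (0, 1)))| ≤ 11 * E A := by
      have a1 := mulb _ _ _ _ hc k3 (by norm_num)
      have a2 := mulb _ _ _ _ hc2 k4 (by norm_num)
      rw [abs_le] at a1 a2 ⊢
      constructor <;> linarith [a1.1, a1.2, a2.1, a2.2]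
    have := fin _ (√y * y⁻¹ * KB_q x y ^ 2) (by positivity) k5
    rw [f4]
    rw [← mul_assoc, ← mul_assoc] at this
    exact this

theorem KDB (hNS : NS_stmt) (hKDA : KDA_stmt) : KDB_stmt := by
  obtain ⟨C, hC, hN⟩ := hKDA
  refine ⟨11 * C, by positivity, ?_⟩
  intro g hPg s x y hy hcond
  have hg : Prof g := hPg.1
  have hs : ContDiffOn ℝ ∞ (fun p : ℝ × ℝ => NN g p.1 p.2) {p | 0 < p.1} := hNS g hg
  obtain ⟨_, h2, h3, h4, h5⟩ := KDB_main hs (fun A => C * MM g A) (1 / (5 * Real.pi)) (by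
      rw [abs_of_pos (by positivity), div_le_one (by positivity)]
      nlinarith [Real.pi_gt_three]) (k1 g) (by
      intro s x y hy
      simp only [k1, KB_q, div_eq_mul_inv, mul_inv]
      ring) s x y hy (by
      intro A c hA hc hAe hce
      have hcnd : A * (1 - c ^ 2) ≤ 1 / 2 := by
        have e1 := KB_c1 (x := x) hy
        have e3 : KB_q x y ^ 2 = (x ^ 2 + y ^ 2)⁻¹ := by
          rw [KB_q, inv_pow, Real.sq_sqrt (by positivity)]
        rw [hce, e1, e3, hAe]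
        rw [div_eq_mul_inv (y ^ 2)] at hcond
        exact hcond
      obtain ⟨n0, n1, n2, n3, n4⟩ := hN g hPg A c hA hc hcnd
      have d1 : ∀ a t : ℝ, 0 < a → deriv (fun u => NN g a u) t =
          fderiv ℝ (fun p : ℝ × ℝ => NN g p.1 p.2) (a, t) (0, 1) :=
        fun a t ha => (KB_d2 hs ha t).deriv
      have d2 : deriv (fun t => deriv (fun u => NN g A u) t) c =
          fderiv ℝ (fun p => fderiv ℝ (fun p : ℝ × ℝ => NN g p.1 p.2) p (0, 1)) (A, c) (0, 1) := by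
        have e1 : (fun t => deriv (fun u => NN g A u) t) = fun t =>
            fderiv ℝ (fun p : ℝ × ℝ => NN g p.1 p.2) (A, t) (0, 1) := funext fun t => d1 A t hA
        rw [e1]
        exact (KB_d2 (KB_par hs (0, 1)) hA c).deriv
      have d3 : deriv (fun a => NN g a c) A =
          fderiv ℝ (fun p : ℝ × ℝ => NN g p.1 p.2) (A, c) (1, 0) := (KB_d1 hs hA c).deriv
      have d4 : deriv (fun a => deriv (fun t => NN g a t) c) A =
          fderiv ℝ (fun p => fderiv ℝ (fun p : ℝ × ℝ => NN g p.1 p.2) p (0, 1)) (A, c) (1, 0) := by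
        have e1 : (fun a => deriv (fun t => NN g a t) c) =ᶠ[nhds A] fun a =>
            fderiv ℝ (fun p : ℝ × ℝ => NN g p.1 p.2) (a, c) (0, 1) := by
          filter_upwards [lt_mem_nhds hA] with a ha
          exact d1 a c ha
        rw [e1.deriv_eq]
        exact (KB_d1 (KB_par hs (0, 1)) hA c).deriv
      rw [d1 A c hA] at n1
      rw [d2] at n2
      rw [d3] at n3
      rw [d4] at n4
      refine ⟨n0, n1, n2, ?_, ?_⟩
      · rwa [abs_mul, abs_of_pos hA]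
      · rwa [abs_mul, abs_of_pos hA])
  intro M r
  have hqr : KB_q x y = r⁻¹ := rfl
  have hsy : √y * y⁻¹ = (√y)⁻¹ := by
    have h1 : √y ≠ 0 := (Real.sqrt_pos.2 hy).ne'
    have h2 : √y * √y = y := Real.mul_self_sqrt hy.le
    have h3 : y ≠ 0 := hy.ne'
    field_simp
    nlinarith
  have hM : M = 11 * (C * MM g (Real.exp (2 * s) / (25 * y))) := by
    show 11 * C * MM g (Real.exp (2 * s) / (25 * y)) = _
    ring
  refine ⟨?_, ?_, ?_, ?_⟩
  · refine h2.trans (le_of_eq ?_)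
    rw [hM, hqr, div_eq_mul_inv, inv_pow]
    ring
  · refine h4.trans (le_of_eq ?_)
    rw [hM, hqr, hsy, div_eq_mul_inv, mul_inv]
    ring
  · refine h3.trans (le_of_eq ?_)
    rw [hM, hqr, div_eq_mul_inv, inv_pow]
    ring
  · refine h5.trans (le_of_eq ?_)
    rw [hM, hqr, hsy, div_eq_mul_inv, mul_inv, inv_pow]
    ring

end SF
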