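import Pool.Agent.helper68.SF.SpecE

set_option autoImplicit false

namespace SF

open MeasureTheory
open scoped ContDiff

theorem L3_snd (v : ℝ × ℝ → ℝ) (hv : ContDiff ℝ ∞ v) (p e1 e2 : ℝ × ℝ) :
    fderiv ℝ (fun q => fderiv ℝ v q e1) p e2 = fderiv ℝ (fderiv ℝ v) p e2 e1 := by
  have h1 : ContDiff ℝ ∞ (fderiv ℝ v) := hv.fderiv_right (by simp)
  have h2 : HasFDerivAt (fderiv ℝ v) (fderiv ℝ (fderiv ℝ v) p) p :=
    (h1.differentiable (by simp) p).hasFDerivAt
  have h3 := (h2.clm_apply (hasFDerivAt_const e1 p)).fderiv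
  rw [h3]
  simp

theorem L3_comm (v : ℝ × ℝ → ℝ) (hv : ContDiff ℝ ∞ v) : px (py v) = py (px v) := by
  funext p
  unfold px py
  rw [L3_snd v hv, L3_snd v hv]
  have h : IsSymmSndFDerivAt ℝ v p := hv.contDiffAt.isSymmSndFDerivAt (by
    rw [minSmoothness_of_isRCLikeNormedField]
    exact WithTop.coe_le_coe.2 le_top)
  exact h _ _

theorem L3_cx (v : ℝ × ℝ → ℝ) (hv : ContDiff ℝ ∞ v) : ContDiff ℝ ∞ (px v) := by
  have h1 : ContDiff ℝ ∞ (fderiv ℝ v) := hv.fderiv_right (by simp)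
  exact h1.clm_apply contDiff_const

theorem L3_cy (v : ℝ × ℝ → ℝ) (hv : ContDiff ℝ ∞ v) : ContDiff ℝ ∞ (py v) := by
  have h1 : ContDiff ℝ ∞ (fderiv ℝ v) := hv.fderiv_right (by simp)
  exact h1.clm_apply contDiff_const

theorem L3_sx (v : ℝ × ℝ → ℝ) (hv : HasCompactSupport v) : HasCompactSupport (px v) :=
  hv.fderiv_apply ℝ (1, 0)

theorem L3_sy (v : ℝ × ℝ → ℝ) (hv : HasCompactSupport v) : HasCompactSupport (py v) :=
  hv.fderiv_apply ℝ (0, 1)

theorem L3_add (f g : ℝ × ℝ → ℝ) (hf : ContDiff ℝ ∞ f) (hg : ContDiff ℝ ∞ g) (p : ℝ × ℝ) :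
    py (fun q => f q + g q) p = py f p + py g p := by
  unfold py
  have h1 := hf.differentiable (by simp) p
  have h2 := hg.differentiable (by simp) p
  have := (h1.hasFDerivAt.add h2.hasFDerivAt).fderiv
  have e : (fun q => f q + g q) = f + g := rfl
  rw [e, this]
  rfl

theorem L3_lap (v : ℝ × ℝ → ℝ) (hv : ContDiff ℝ ∞ v) (p : ℝ × ℝ) :
    lap (py v) p = py (lap v) p := by
  have h1 : px (px (py v)) = py (px (px v)) := by
    rw [L3_comm v hv, L3_comm (px v) (L3_cx v hv)]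
  have h2 : py (lap v) p = py (px (px v)) p + py (py (py v)) p :=
    L3_add _ _ (L3_cx _ (L3_cx v hv)) (L3_cy _ (L3_cy v hv)) p
  rw [h2, ← h1]
  rfl

theorem L3 (hL2 : L2_stmt) : L3_stmt := by
  intro v hv hs
  have hw := L3_cy v hv
  have hws := L3_sy v hs
  have h := hL2 (py v) hw hws
  have e : ∫ p, py (lap v) p ^ 2 = ∫ p, lap (py v) p ^ 2 := by
    congr 1
    funext p
    rw [L3_lap v hv p]
  rw [e, ← h]
  have c1 := L3_cx _ (L3_cx _ hw)
  have c2 := L3_cx _ (L3_cy _ hw)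
  have c3 := L3_cy _ (L3_cy _ hw)
  have s1 := L3_sx _ (L3_sx _ hws)
  have s2 := L3_sx _ (L3_sy _ hws)
  have s3 := L3_sy _ (L3_sy _ hws)
  have i : ∀ g : ℝ × ℝ → ℝ, ContDiff ℝ ∞ g → HasCompactSupport g →
      Integrable (fun p => g p ^ 2) := by
    intro g hg hgs
    refine (hg.continuous.pow 2).integrable_of_hasCompactSupport ?_
    refine hgs.mono ?_
    intro p hp
    rw [Function.mem_support] at hp ⊢
    intro h0
    apply hp
    simp [h0]
  apply integral_mono (i _ c1 s1) (((i _ c1 s1).add ((i _ c2 s2).const_mul 2)).add (i _ c3 s3))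
  intro p
  show px (px (py v)) p ^ 2 ≤ px (px (py v)) p ^ 2 + 2 * px (py (py v)) p ^ 2 + py (py (py v)) p ^ 2
  have := sq_nonneg (px (py (py v)) p)
  have := sq_nonneg (py (py (py v)) p)
  linarith

end SF

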