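import Mathlib
import Pool.Agent.helper68.SF.SpecE

set_option autoImplicit false

namespace SF

open MeasureTheory
open scoped ContDiff

namespace RCaux

theorem meas_Dm : MeasurableSet Dm := by
  have h : IsOpen Dm := by
    unfold Dm
    exact ((isOpen_lt continuous_const continuous_fst).inter
      ((isOpen_lt continuous_fst continuous_const).inter
        ((isOpen_lt continuous_const continuous_snd).inter
          (isOpen_lt continuous_const ((continuous_fst.pow 2).add (continuous_snd.pow 2))))))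
  exact h.measurableSet

theorem open_H : IsOpen {p : ℝ × ℝ | 0 < p.2} := isOpen_lt continuous_const continuous_snd

theorem sl_smooth {g : ℝ → ℝ → ℝ → ℝ} (hg : Sm g) (s : ℝ) :
    ContDiffOn ℝ ∞ (fun p : ℝ × ℝ => g s p.1 p.2) {p | 0 < p.2} := by
  have h1 : ContDiff ℝ ∞ (fun p : ℝ × ℝ => ((s, p.1, p.2) : ℝ × ℝ × ℝ)) := by fun_prop
  exact ContDiffOn.comp (g := fun p : ℝ × ℝ × ℝ => g p.1 p.2.1 p.2.2)
    (t := {p : ℝ × ℝ × ℝ | 0 < p.2.2}) hg h1.contDiffOn (fun p hp => hp)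

theorem sl_diff {g : ℝ → ℝ → ℝ → ℝ} (hg : Sm g) (s : ℝ) (p : ℝ × ℝ) (hp : 0 < p.2) :
    DifferentiableAt ℝ (fun p : ℝ × ℝ => g s p.1 p.2) p := by
  have h1 := sl_smooth hg s
  have h2 := h1.contDiffAt (open_H.mem_nhds hp)
  exact h2.differentiableAt (by simp)

theorem px_eq {g : ℝ → ℝ → ℝ → ℝ} (hg : Sm g) (s : ℝ) (p : ℝ × ℝ) (hp : 0 < p.2) :
    px (fun p : ℝ × ℝ => g s p.1 p.2) p = dX g s p.1 p.2 := by
  have h1 := (sl_diff hg s p hp).hasFDerivAt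
  have h2 : HasDerivAt (fun t : ℝ => ((t, p.2) : ℝ × ℝ)) ((1, 0) : ℝ × ℝ) p.1 := by
    exact (hasDerivAt_id p.1).prodMk (hasDerivAt_const p.1 p.2)
  have h3 := HasFDerivAt.comp_hasDerivAt (x := p.1) (f := fun t : ℝ => ((t, p.2) : ℝ × ℝ))
    (l := fun p : ℝ × ℝ => g s p.1 p.2) h1 h2
  unfold px dX
  exact h3.deriv.symm

theorem py_eq {g : ℝ → ℝ → ℝ → ℝ} (hg : Sm g) (s : ℝ) (p : ℝ × ℝ) (hp : 0 < p.2) :
    py (fun p : ℝ × ℝ => g s p.1 p.2) p = dY g s p.1 p.2 := by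
  have h1 := (sl_diff hg s p hp).hasFDerivAt
  have h2 : HasDerivAt (fun t : ℝ => ((p.1, t) : ℝ × ℝ)) ((0, 1) : ℝ × ℝ) p.2 := by
    exact (hasDerivAt_const p.2 p.1).prodMk (hasDerivAt_id p.2)
  have h3 := HasFDerivAt.comp_hasDerivAt (x := p.2) (f := fun t : ℝ => ((p.1, t) : ℝ × ℝ))
    (l := fun p : ℝ × ℝ => g s p.1 p.2) h1 h2
  unfold py dY
  exact h3.deriv.symm

/-- the slice satisfies the hypotheses of TBD -/
theorem slice (hENW : ENW_stmt) (hENC : ENC_stmt) (hEWC : EWC_stmt) {g : ℝ → ℝ → ℝ → ℝ}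
    (hg : EW g) (s : ℝ) :
    IntegrableOn (fun p : ℝ × ℝ => p.2 ^ 2 * ((fun p : ℝ × ℝ => g s p.1 p.2) p ^ 2 +
      px (fun p : ℝ × ℝ => g s p.1 p.2) p ^ 2 + py (fun p : ℝ × ℝ => g s p.1 p.2) p ^ 2)) Dm ∧
    ∫ p in Dm, p.2 ^ 2 * ((fun p : ℝ × ℝ => g s p.1 p.2) p ^ 2 +
      px (fun p : ℝ × ℝ => g s p.1 p.2) p ^ 2 + py (fun p : ℝ × ℝ => g s p.1 p.2) p ^ 2) ≤
      4 * (En g 0 + En (dS (dS g)) 0) := by
  have hE : ∀ p ∈ Dm, p.2 ^ 2 * ((fun p : ℝ × ℝ => g s p.1 p.2) p ^ 2 +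
      px (fun p : ℝ × ℝ => g s p.1 p.2) p ^ 2 + py (fun p : ℝ × ℝ => g s p.1 p.2) p ^ 2) =
      p.2 ^ 2 * ((g s p.1 p.2) ^ 2 + (dX g s p.1 p.2) ^ 2 + (dY g s p.1 p.2) ^ 2) := by
    intro p hp
    have hp2 : 0 < p.2 := hp.2.2.1
    rw [px_eq hg.sm s p hp2, py_eq hg.sm s p hp2]
  obtain ⟨h1, h2, h3⟩ := hENW g hg s
  constructor
  · have h4 := h1.add h2
    refine IntegrableOn.congr_fun h4 ?_ meas_Dm
    intro p hp
    have h5 := hE p hp
    refine Eq.trans ?_ h5.symm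
    show p.2 ^ 2 * ((dX g s p.1 p.2) ^ 2 + (dY g s p.1 p.2) ^ 2) + p.2 ^ 2 * (g s p.1 p.2) ^ 2 = _
    ring
  · rw [setIntegral_congr_fun meas_Dm hE]
    rw [hENC g hg s 0, hENC (dS (dS g)) (hEWC.1 _ (hEWC.1 _ hg)) s 0] at h3
    exact h3

end RCaux

open RCaux

theorem RC (hTBD : TBD_stmt) (hPH : PH_stmt) (hENW : ENW_stmt) (hENC : ENC_stmt) (hENZ : ENZ_stmt)
    (hEWC : EWC_stmt) (hEZ : EZ_stmt) : RC_stmt := by
  intro f hf ε T hε
  have hit : ∀ j : ℕ, EW (dS^[j] f) := by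
    intro j
    induction j with
    | zero => exact hf
    | succ j ih => rw [Function.iterate_succ_apply']; exact hEWC.1 _ ih
  set M : ℝ := 1 + ∑ j ∈ Finset.range 8, |4 * (En (dS^[j] f) 0 + En (dS (dS (dS^[j] f))) 0)| with hM
  have hMpos : 0 < M := by
    have : 0 ≤ ∑ j ∈ Finset.range 8, |4 * (En (dS^[j] f) 0 + En (dS (dS (dS^[j] f))) 0)| :=
      Finset.sum_nonneg (fun j _ => abs_nonneg _)
    linarith
  have hMb : ∀ j : ℕ, j < 8 → 4 * (En (dS^[j] f) 0 + En (dS (dS (dS^[j] f))) 0) ≤ M := by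
    intro j hj
    have h1 := Finset.single_le_sum
      (f := fun j => |4 * (En (dS^[j] f) 0 + En (dS (dS (dS^[j] f))) 0)|)
      (fun j _ => abs_nonneg _) (Finset.mem_range.2 hj)
    have h2 := le_abs_self (4 * (En (dS^[j] f) 0 + En (dS (dS (dS^[j] f))) 0))
    exact h2.trans (h1.trans (by linarith))
  obtain ⟨N, K, η, φ, hη, hφ1, hφ2⟩ := hTBD M (ε / 12) hMpos (by positivity)
  have hsm : ∀ (j n : ℕ), ContDiffOn ℝ ∞ (fun p : ℝ × ℝ => (dS^[j] f) n p.1 p.2) {p | 0 < p.2} :=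
    fun j n => sl_smooth (hit j).sm n
  have hinv : ∀ (j n : ℕ) (x y : ℝ), 0 < y → (fun p : ℝ × ℝ => (dS^[j] f) n p.1 p.2)
      (x / (x ^ 2 + y ^ 2), y / (x ^ 2 + y ^ 2)) =
      -(fun p : ℝ × ℝ => (dS^[j] f) n p.1 p.2) (x, y) := by
    intro j n x y hy
    exact (hEZ _ (hit j) n y hy).2.2.2 x
  obtain ⟨n, m, hnm, hcl⟩ := hPH (8 * N) K η T
    (fun n i => φ (finProdFinEquiv.symm i).2
      (fun p : ℝ × ℝ => (dS^[((finProdFinEquiv.symm i).1 : Fin 8).val] f) n p.1 p.2)) hη (by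
    intro n i
    have hj := ((finProdFinEquiv.symm i).1 : Fin 8).isLt
    have hs := slice hENW hENC hEWC (hit ((finProdFinEquiv.symm i).1 : Fin 8).val) n
    exact hφ1 _ (hsm _ n) (hinv _ n) hs.1 (hs.2.trans (hMb _ hj)) _)
  have hclose : ∀ j : ℕ, j < 8 →
      ∫ p in Dm, ((dS^[j] f) n p.1 p.2 - (dS^[j] f) m p.1 p.2) ^ 2 ≤ ε / 12 := by
    intro j hj
    have hs := slice hENW hENC hEWC (hit j) n
    have hs' := slice hENW hENC hEWC (hit j) m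
    refine hφ2 _ _ (hsm j n) (hsm j m) (hinv j n) (hinv j m) hs.1 hs'.1 (hs.2.trans (hMb j hj))
      (hs'.2.trans (hMb j hj)) ?_
    intro i
    have h1 := hcl (finProdFinEquiv (⟨j, hj⟩, i))
    simpa using h1
  refine ⟨(m : ℝ) - n, by linarith, ?_⟩
  set v : ℝ → ℝ → ℝ → ℝ := fun s x y => f (s + ((m : ℝ) - n)) x y - f s x y with hv
  obtain ⟨hvE, hvj⟩ := hEWC.2 f hf ((m : ℝ) - n)
  rw [← hv] at hvE hvj
  have hitv : ∀ j : ℕ, EW (dS^[j] v) := by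
    intro j
    induction j with
    | zero => exact hvE
    | succ j ih => rw [Function.iterate_succ_apply']; exact hEWC.1 _ ih
  have hδ : (0 : ℝ) < √(ε / 12) := Real.sqrt_pos.2 (by positivity)
  have hδ2 : √(ε / 12) ^ 2 = ε / 12 := Real.sq_sqrt (by positivity)
  have hvs : ∀ j : ℕ, j < 8 → ∫ p in Dm, ((dS^[j] v) (n : ℝ) p.1 p.2) ^ 2 ≤ √(ε / 12) ^ 2 := by
    intro j hj
    rw [hδ2]
    refine le_of_eq_of_le ?_ (hclose j hj)
    refine setIntegral_congr_fun meas_Dm ?_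
    intro p hp
    have hp2 : 0 < p.2 := hp.2.2.1
    have h1 := hvj j n p.1 p.2 hp2
    have h2 : (n : ℝ) + ((m : ℝ) - n) = m := by ring
    rw [h2] at h1
    show ((dS^[j] v) (n : ℝ) p.1 p.2) ^ 2 = ((dS^[j] f) n p.1 p.2 - (dS^[j] f) m p.1 p.2) ^ 2
    rw [h1]
    ring
  intro s
  have hj : ∀ j ∈ Finset.range 6, En (dS^[j] v) s ≤ ε / 6 := by
    intro j hj
    have hj6 := Finset.mem_range.1 hj
    rw [hENC _ (hitv j) s n]
    have h0 := hvs j (by omega)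
    have h1 := hvs (j + 1) (by omega)
    have h2 := hvs (j + 2) (by omega)
    rw [Function.iterate_succ_apply'] at h1
    rw [Function.iterate_succ_apply', Function.iterate_succ_apply'] at h2
    have h3 := hENZ _ (hitv j) n (√(ε / 12)) (√(ε / 12)) hδ h0 h1 h2
    rw [abs_of_pos hδ] at h3
    nlinarith [h3, hδ2]
  have h6 := Finset.sum_le_sum hj
  refine h6.trans ?_
  rw [Finset.sum_const, Finset.card_range]
  simp only [nsmul_eq_mul]
  push_cast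
  linarith

end SF
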